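import Pool.Agent.Helper753_MagHom.Final

/-!
# Magnitude homology of real hyperplane arrangements is torsion-free
-/

set_option autoImplicit false

namespace Pool.Agent.Results.MP_95f31c_co.TorsionFree

open Pool.Agent.Helper753_MagHom

/-- For every real hyperplane arrangement and all `k`, `l`, the magnitude homology group
`MH_{k,l}` of the tope graph is torsion-free: no nonzero element has finite order. -/
theorem result : ∀ (d : ℕ) (A : Arrangement d) (k l : ℕ) (n : ℤ) (x : MH A.topeGraph k l),
    n ≠ 0 → n • x = 0 → x = 0 := by
  intro d A k l n x hn hx
  haveI := MH_free A k l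
  rcases smul_eq_zero.mp hx with h | h
  · exact absurd h hn
  · exact h

end Pool.Agent.Results.MP_95f31c_co.TorsionFree
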